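import Pool.Agent.T6helper6.FF.Faith

/-!
# Chow motives form a semisimple category if rational and numerical equivalence agree
-/

set_option autoImplicit false
set_option linter.unusedSectionVars false
set_option linter.unusedSimpArgs false
set_option backward.isDefEq.respectTransparency false
set_option backward.defeqAttrib.useBackward true

open CategoryTheory Limits MonoidalCategory Pretriangulated Triangulated ZeroObject
open scoped Polynomial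

namespace Pool.Agent.T6helper6.FF

open Pool.Agent.Y116.MT Pool.Agent.V1178.MT Pool.Agent.T6helper6.MT

universe v u w

section

variable {C : Type u} [Category.{v} C]

/-- Von Neumann regular endomorphism monoids. -/
def Reg (X : C) : Prop := ∀ f : X ⟶ X, ∃ g : X ⟶ X, f ≫ g ≫ f = f

end

section

variable {C : Type u} [Category.{v} C] [Preadditive C] [HasZeroObject C] [HasShift C ℤ]
  [∀ n : ℤ, (shiftFunctor C n).Additive] [Pretriangulated C] [MonoidalCategory C]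
  [SymmetricCategory C] [TensorTriangulated C] [MonoidalPreadditive C] [RightRigidCategory C]
  [Linear ℚ C] {Λ : Type*} {E : Λ → Type w} [∀ l, Field (E l)] [∀ l, CharZero (E l)]
  {R : ∀ l, Realisation C (E l)} {P : C → Prop} {φ : ∀ X : C, X ⟶ X} {p : C → ℤ → ℚ[X]}
  (h : IsFrobenius R P φ p)

/-- The realisation on endomorphisms, as a homomorphism of rings. -/
def rho {E₀ : Type w} [Field E₀] (R : Realisation C E₀) (X : C) :
    End X →+* Module.End E₀ (R.H.obj X) where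
  toFun a := (R.H.map a).hom
  map_one' := by
    change (R.H.map (𝟙 X)).hom = _
    rw [CategoryTheory.Functor.map_id]
    rfl
  map_mul' a b := by
    change (R.H.map (b ≫ a)).hom = _
    rw [Functor.map_comp]
    rfl
  map_zero' := by
    change (R.H.map (0 : X ⟶ X)).hom = _
    rw [Functor.map_zero]
    rfl
  map_add' a b := by
    change (R.H.map (_ + _ : X ⟶ X)).hom = _
    rw [Functor.map_add]
    rfl

lemma trace_scalar {E₀ : Type w} [Field E₀] [CharZero E₀] {R : Realisation C E₀} {X : C}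
    (hX : R.Deg X 0) (a : End X) (q : ℚ) (hq : tr (a : X ⟶ X) = q • 𝟙 _) :
    LinearMap.trace E₀ (R.H.obj X) (rho R X a) = algebraMap ℚ E₀ q := by
  have h1 := H_trace hX a
  have h2 : LinearMap.trace E₀ (R.H.obj X) (rho R X a) =
    LinearMap.trace E₀ (R.H.obj X) (R.H.map a).hom := rfl
  rw [h2, ← h1, hq]
  have h3 : Functor.LaxMonoidal.ε R.H ≫ R.H.map (q • 𝟙 (𝟙_ C)) ≫ inv (Functor.LaxMonoidal.ε R.H) =
      algebraMap ℚ E₀ q • 𝟙 _ := by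
    have h4 : R.H.map (q • 𝟙 (𝟙_ C)) = algebraMap ℚ E₀ q • 𝟙 (R.H.obj (𝟙_ C)) := by
      apply ModuleCat.hom_ext
      rw [H_qsmul, CategoryTheory.Functor.map_id]
      rfl
    rw [h4, Linear.smul_comp, Linear.comp_smul, Category.id_comp, IsIso.hom_inv_id]
  rw [h3]
  change algebraMap ℚ E₀ q • (1 : E₀) = _
  rw [smul_eq_mul, mul_one]

include h

lemma reg_deg (hn : ∀ M, P M → ∀ f : 𝟙_ C ⟶ M, f ≠ 0 → ∃ g : M ⟶ 𝟙_ C, f ≫ g ≠ 0)
    {L : C} (hL : P L) {n : ℤ} (l : Λ) (hd : (R l).Deg L n) : Reg (L⟦n⟧) := by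
  have hX : (R l).Deg (L⟦n⟧) 0 := hd.shift n 0 (by omega)
  choose q hq using h.unit_scalar
  have hinj : Function.Injective (algebraMap ℚ (E l)) := (algebraMap ℚ (E l)).injective
  have hτ : ∀ a : End (L⟦n⟧), LinearMap.trace (E l) ((R l).H.obj (L⟦n⟧)) (rho (R l) (L⟦n⟧) a) =
      algebraMap ℚ (E l) (q (tr (a : L⟦n⟧ ⟶ L⟦n⟧))) := fun a => trace_scalar hX a _ (hq _)
  let τ : End (L⟦n⟧) →ₗ[ℚ] ℚ :=
    { toFun := fun a => q (tr (a : L⟦n⟧ ⟶ L⟦n⟧))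
      map_add' := fun a b => by
        apply hinj
        rw [← hτ, map_add, map_add, map_add, hτ, hτ]
      map_smul' := fun c a => by
        apply hinj
        have h1 : rho (R l) (L⟦n⟧) (c • a) = algebraMap ℚ (E l) c • rho (R l) (L⟦n⟧) a :=
          H_qsmul (R l).H c (a : L⟦n⟧ ⟶ L⟦n⟧)
        rw [← hτ, h1, map_smul, hτ, smul_eq_mul, RingHom.id_apply, smul_eq_mul, map_mul] }
  intro f
  obtain ⟨b, hb⟩ := regular_of_trace (rho (R l) (L⟦n⟧)) τ hτ (fun a ha => by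
    have h1 : nm (a : L⟦n⟧ ⟶ L⟦n⟧) ≠ 0 := fun h0 => ha (eq_zero_of_nm _ h0)
    have h2 : nm (a : L⟦n⟧ ⟶ L⟦n⟧) ≫ (endShift L n).hom ≠ 0 := by
      intro h0
      apply h1
      rw [← cancel_mono (endShift L n).hom, h0, zero_comp]
    obtain ⟨g, hg⟩ := hn _ (h.tensor hL (h.dual hL)) _ h2
    obtain ⟨b, hb⟩ : ∃ b : End (L⟦n⟧), ∀ a : End (L⟦n⟧), nm (a : L⟦n⟧ ⟶ L⟦n⟧) ≫
        (endShift L n).hom ≫ g = tr (a ≫ b : L⟦n⟧ ⟶ L⟦n⟧) := exists_tr ((endShift L n).hom ≫ g)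
    refine ⟨b, fun h0 => hg ?_⟩
    rw [Category.assoc, hb]
    have h3 : algebraMap ℚ (E l) (q (tr (a ≫ b : L⟦n⟧ ⟶ L⟦n⟧))) = 0 := by
      have h4 := hτ (b * a)
      have h5 := hτ (a * b)
      have h6 : q (tr ((a * b : End (L⟦n⟧)) : L⟦n⟧ ⟶ L⟦n⟧)) = 0 := h0
      rw [h6, map_zero, map_mul, LinearMap.trace_mul_comm, ← map_mul] at h5
      exact h4.symm.trans h5
    rw [map_eq_zero] at h3
    rw [hq (tr (a ≫ b : L⟦n⟧ ⟶ L⟦n⟧)), h3, zero_smul]) f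
  exact ⟨b, hb⟩

lemma reg_deg' (hn : ∀ M, P M → ∀ f : 𝟙_ C ⟶ M, f ≠ 0 → ∃ g : M ⟶ 𝟙_ C, f ≫ g ≠ 0)
    {L : C} (hL : P L) {n : ℤ} (l : Λ) (hd : (R l).Deg L n) : Reg L := by
  intro f
  obtain ⟨g, hg⟩ := reg_deg h hn hL l hd (f⟦n⟧')
  obtain ⟨g', rfl⟩ := (shiftFunctor C n).map_surjective g
  refine ⟨g', (shiftFunctor C n).map_injective ?_⟩
  rw [Functor.map_comp, Functor.map_comp]
  exact hg

omit h in
lemma shift_pe {X : C} (f : X ⟶ X) (n : ℤ) (q : ℚ[X]) : (pe f q)⟦n⟧' = pe (f⟦n⟧') q :=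
  map_pe (shiftFunctor C n) f q

lemma char_pe (l : Λ) (i : ℤ) {M : C} (hM : P M) : (R l).H.map ((pe (φ M) (p M i))⟦i⟧') = 0 := by
  rw [shift_pe]
  apply ModuleCat.hom_ext
  rw [H_pe]
  exact h.annihilate hM l i

lemma pe_phi_natural {X Y : C} (f : X ⟶ Y) (q : ℚ[X]) : f ≫ pe (φ Y) q = pe (φ X) q ≫ f :=
  pe_natural (h.natural f) q

/-- The annihilator on cohomology of a direct summand. -/
lemma char_summand (l : Λ) (i : ℤ) {M N : C} (a : N ⟶ M) (b : M ⟶ N) (hab : a ≫ b = 𝟙 N)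
    (q : ℚ[X]) (hM : (R l).H.map ((pe (φ M) q)⟦i⟧') = 0) :
    (R l).H.map ((pe (φ N) q)⟦i⟧') = 0 := by
  have h1 : pe (φ N) q = a ≫ pe (φ M) q ≫ b := by
    rw [← pe_phi_natural h b, reassoc_of% hab]
  rw [h1, Functor.map_comp, Functor.map_comp, Functor.map_comp, Functor.map_comp, hM, zero_comp,
    comp_zero]

lemma deg_of_kill (l : Λ) {q : ℤ → ℚ[X]} (hq : ∀ i j, i ≠ j → IsCoprime (q i) (q j)) {N : C}
    (hN : ∀ i, (R l).H.map ((pe (φ N) (q i))⟦i⟧') = 0) {a : ℤ} (ha : pe (φ N) (q a) = 0) :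
    (R l).Deg N a := by
  intro i hi
  obtain ⟨u, v, huv⟩ := hq a i hi.symm
  rw [IsZero.iff_id_eq_zero]
  have h1 : 𝟙 N = pe (φ N) v ≫ pe (φ N) (q i) := by
    rw [← pe_mul', ← pe_one (φ N), ← huv, pe_add, pe_mul_zero u ha, zero_add]
  have h2 : 𝟙 ((R l).H.obj (N⟦i⟧)) = (R l).H.map ((𝟙 N)⟦i⟧') := by
    rw [CategoryTheory.Functor.map_id, CategoryTheory.Functor.map_id]
  rw [h2, h1, Functor.map_comp, Functor.map_comp, hN, comp_zero]

/-- Regularity of the endomorphisms of a Chow motive. -/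
lemma reg_aux [IsIdempotentComplete C] [Nonempty Λ]
    (hn : ∀ M, P M → ∀ f : 𝟙_ C ⟶ M, f ≠ 0 → ∃ g : M ⟶ 𝟙_ C, f ≫ g ≠ 0)
    {q : ℤ → ℚ[X]} (hq : ∀ i j, i ≠ j → IsCoprime (q i) (q j)) (S : Finset ℤ) :
    ∀ N : C, P N → (∀ l i, (R l).H.map ((pe (φ N) (q i))⟦i⟧') = 0) →
      pe (φ N) (∏ i ∈ S, q i) = 0 → Reg N := by
  classical
  induction S using Finset.induction_on with
  | empty =>
    intro N _ _ h0 f
    rw [Finset.prod_empty, pe_one] at h0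
    refine ⟨0, ?_⟩
    rw [zero_comp, comp_zero, ← Category.comp_id f, h0, comp_zero]
  | insert a S ha ih =>
    intro N hN hc h0 f
    rw [Finset.prod_insert ha] at h0
    have hcop : IsCoprime (q a) (∏ i ∈ S, q i) :=
      IsCoprime.prod_right fun i hi => hq a i (fun h1 => ha (h1 ▸ hi))
    obtain ⟨e, he1, he2, he3⟩ := exists_idem hcop h0
    obtain ⟨N₁, i₁, r₁, h1, h1'⟩ := IsIdempotentComplete.idempotents_split N (pe (φ N) e) he1
    have he1' : (𝟙 N - pe (φ N) e) ≫ (𝟙 N - pe (φ N) e) = 𝟙 N - pe (φ N) e := by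
      rw [Preadditive.sub_comp, Category.id_comp, Preadditive.comp_sub, Category.comp_id, he1,
        sub_self, sub_zero]
    obtain ⟨N₂, i₂, r₂, h2, h2'⟩ := IsIdempotentComplete.idempotents_split N _ he1'
    have hi₁ : i₁ ≫ pe (φ N) e = i₁ := by rw [← h1', reassoc_of% h1]
    have hi₂ : i₂ ≫ (𝟙 N - pe (φ N) e) = i₂ := by rw [← h2', reassoc_of% h2]
    have k1 : pe (φ N₁) (q a) = 0 := by
      have h3 : pe (φ N₁) (q a) = i₁ ≫ pe (φ N) (q a) ≫ r₁ := by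
        rw [← pe_phi_natural h r₁, reassoc_of% h1]
      rw [h3, ← hi₁, Category.assoc, reassoc_of% he2, zero_comp, comp_zero]
    have k2 : pe (φ N₂) (∏ i ∈ S, q i) = 0 := by
      have h3 : pe (φ N₂) (∏ i ∈ S, q i) = i₂ ≫ pe (φ N) (∏ i ∈ S, q i) ≫ r₂ := by
        rw [← pe_phi_natural h r₂, reassoc_of% h2]
      rw [h3, ← hi₂, Category.assoc, reassoc_of% he3, zero_comp, comp_zero]
    have P₁ : P N₁ := h.summand i₁ r₁ h1 hN
    have P₂ : P N₂ := h.summand i₂ r₂ h2 hN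
    have c₁ : ∀ l i, (R l).H.map ((pe (φ N₁) (q i))⟦i⟧') = 0 := fun l i =>
      char_summand h l i i₁ r₁ h1 (q i) (hc l i)
    have c₂ : ∀ l i, (R l).H.map ((pe (φ N₂) (q i))⟦i⟧') = 0 := fun l i =>
      char_summand h l i i₂ r₂ h2 (q i) (hc l i)
    obtain ⟨l⟩ := ‹Nonempty Λ›
    have d₁ : (R l).Deg N₁ a := deg_of_kill h l hq (c₁ l) k1
    obtain ⟨g₁, hg₁⟩ := reg_deg' h hn P₁ l d₁ (i₁ ≫ f ≫ r₁)
    obtain ⟨g₂, hg₂⟩ := ih N₂ P₂ c₂ k2 (i₂ ≫ f ≫ r₂)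
    refine ⟨r₁ ≫ g₁ ≫ i₁ + r₂ ≫ g₂ ≫ i₂, ?_⟩
    set ε := pe (φ N) e with hε
    have hcomm : f ≫ ε = ε ≫ f := pe_phi_natural h f e
    -- `f = ε f ε + (1 - ε) f (1 - ε)`
    have f1 : ε ≫ f ≫ ε = ε ≫ f := by rw [hcomm, ← Category.assoc, he1]
    have key1 : f ≫ r₁ ≫ g₁ ≫ i₁ ≫ f = ε ≫ f := by
      have a1 : r₁ ≫ i₁ ≫ f = f ≫ ε := by rw [← Category.assoc, h1', ← hcomm]
      have a2 : r₁ = r₁ ≫ i₁ ≫ r₁ := by rw [h1, Category.comp_id]
      have a3 : f ≫ r₁ = r₁ ≫ i₁ ≫ f ≫ r₁ := by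
        rw [← Category.assoc, ← Category.assoc, h1', ← hcomm, Category.assoc, ← h1', Category.assoc,
          h1, Category.comp_id]
      have a4 : i₁ ≫ f = (i₁ ≫ f ≫ r₁) ≫ i₁ := by
        rw [Category.assoc, Category.assoc, h1', hcomm, ← Category.assoc, hi₁]
      calc f ≫ r₁ ≫ g₁ ≫ i₁ ≫ f = (f ≫ r₁) ≫ g₁ ≫ (i₁ ≫ f) := by simp only [Category.assoc]
        _ = (r₁ ≫ i₁ ≫ f ≫ r₁) ≫ g₁ ≫ ((i₁ ≫ f ≫ r₁) ≫ i₁) := by rw [← a3, ← a4]
        _ = r₁ ≫ ((i₁ ≫ f ≫ r₁) ≫ g₁ ≫ (i₁ ≫ f ≫ r₁)) ≫ i₁ := by simp only [Category.assoc]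
        _ = r₁ ≫ (i₁ ≫ f ≫ r₁) ≫ i₁ := by rw [hg₁]
        _ = ε ≫ f := by rw [← a4, ← Category.assoc, h1']
    have key2 : f ≫ r₂ ≫ g₂ ≫ i₂ ≫ f = (𝟙 N - ε) ≫ f := by
      have hcomm' : f ≫ (𝟙 N - ε) = (𝟙 N - ε) ≫ f := by
        rw [Preadditive.comp_sub, Preadditive.sub_comp, Category.comp_id, Category.id_comp, hcomm]
      have a3 : f ≫ r₂ = r₂ ≫ i₂ ≫ f ≫ r₂ := by
        rw [← Category.assoc, ← Category.assoc, h2', ← hcomm', Category.assoc, ← h2', Category.assoc,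
          h2, Category.comp_id]
      have a4 : i₂ ≫ f = (i₂ ≫ f ≫ r₂) ≫ i₂ := by
        rw [Category.assoc, Category.assoc, h2', hcomm', ← Category.assoc, hi₂]
      calc f ≫ r₂ ≫ g₂ ≫ i₂ ≫ f = (f ≫ r₂) ≫ g₂ ≫ (i₂ ≫ f) := by simp only [Category.assoc]
        _ = (r₂ ≫ i₂ ≫ f ≫ r₂) ≫ g₂ ≫ ((i₂ ≫ f ≫ r₂) ≫ i₂) := by rw [← a3, ← a4]
        _ = r₂ ≫ ((i₂ ≫ f ≫ r₂) ≫ g₂ ≫ (i₂ ≫ f ≫ r₂)) ≫ i₂ := by simp only [Category.assoc]
        _ = r₂ ≫ (i₂ ≫ f ≫ r₂) ≫ i₂ := by rw [hg₂]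
        _ = (𝟙 N - ε) ≫ f := by rw [← a4, ← Category.assoc, h2']
    rw [Preadditive.add_comp, Preadditive.comp_add]
    simp only [Category.assoc]
    rw [key1, key2, Preadditive.sub_comp, Category.id_comp]
    abel

lemma reg_chow [IsIdempotentComplete C] [Nonempty Λ]
    (hn : ∀ M, P M → ∀ f : 𝟙_ C ⟶ M, f ≠ 0 → ∃ g : M ⟶ 𝟙_ C, f ≫ g ≠ 0) {M : C} (hM : P M) :
    Reg M := by
  obtain ⟨l⟩ := ‹Nonempty Λ›
  obtain ⟨N, hN⟩ := (R l).bounded M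
  have : Nonempty Λ := ⟨l⟩
  refine reg_aux h hn (q := p M) (fun i j hij => h.coprime hM hM i j hij) (Finset.Icc (-N) N) M hM
    (fun l i => char_pe h l i hM) ?_
  apply faithful_chow h hn l hM hM
  intro i
  by_cases hi : i ∈ Finset.Icc (-N : ℤ) N
  · rw [← Finset.mul_prod_erase _ _ hi, pe_mul', Functor.map_comp, Functor.map_comp,
      char_pe h l i hM, zero_comp]
  · have h1 : IsZero ((R l).H.obj (M⟦i⟧)) := by
      apply hN
      rw [Finset.mem_Icc] at hi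
      omega
    exact h1.eq_of_src _ _

/-- Every morphism of Chow motives is regular. -/
lemma reg_hom [IsIdempotentComplete C] [Nonempty Λ]
    (hn : ∀ M, P M → ∀ f : 𝟙_ C ⟶ M, f ≠ 0 → ∃ g : M ⟶ 𝟙_ C, f ≫ g ≠ 0) {M N : C} (hM : P M)
    (hN : P N) (f : M ⟶ N) : ∃ g : N ⟶ M, f ≫ g ≫ f = f := by
  obtain ⟨G, hG⟩ := reg_chow h hn (h.sum hM hN) (biprod.fst ≫ f ≫ biprod.inr)
  refine ⟨biprod.inr ≫ G ≫ biprod.fst, ?_⟩
  have h1 := congrArg (fun z => biprod.inl ≫ z ≫ biprod.snd) hG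
  simpa only [Category.assoc, biprod.inl_fst_assoc, biprod.inr_snd, Category.comp_id] using h1

end

end Pool.Agent.T6helper6.FF
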