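import Pool.Agent.T6helper6.FF.Reg
import Pool.Agent.T6helper6.FF.Fil

/-!
# The motivic t-structure over a finite field exists if the conjectures of Parshin and Beilinson hold
-/

set_option autoImplicit false
set_option linter.unusedSectionVars false
set_option linter.unusedSimpArgs false
set_option backward.isDefEq.respectTransparency false
set_option backward.defeqAttrib.useBackward true

open CategoryTheory Limits MonoidalCategory Pretriangulated Triangulated ZeroObject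
open scoped Polynomial

namespace Pool.Agent.T6helper6.FF

open Pool.Agent.Y116.MT Pool.Agent.V1178.MT Pool.Agent.T6helper6.MT

universe v u w

section

variable {C : Type u} [Category.{v} C] [Preadditive C] [HasZeroObject C] [HasShift C ℤ]
  [∀ n : ℤ, (shiftFunctor C n).Additive] [Pretriangulated C] [MonoidalCategory C]
  [SymmetricCategory C] [TensorTriangulated C] [MonoidalPreadditive C] [RightRigidCategory C]
  [Linear ℚ C] {Λ : Type*} {E : Λ → Type w} [∀ l, Field (E l)] [∀ l, CharZero (E l)]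
  {R : ∀ l, Realisation C (E l)} {P : C → Prop} {φ : ∀ X : C, X ⟶ X} {p : C → ℤ → ℚ[X]}
  (h : IsFrobenius R P φ p)
  (hpar : ∀ M, P M → ∀ n : ℤ, n < 0 → ∀ f : 𝟙_ C ⟶ M⟦n⟧, f = 0)
  (hn : ∀ M, P M → ∀ f : 𝟙_ C ⟶ M, f ≠ 0 → ∃ g : M ⟶ 𝟙_ C, f ≫ g ≠ 0)

include h

lemma P_iso {M N : C} (hM : P M) (e : M ≅ N) : P N := h.summand e.inv e.hom e.inv_hom_id hM

lemma P_sum {X Y : C} (b : ℤ) (hX : P (X⟦b⟧)) (hY : P (Y⟦b⟧)) : P ((X ⊞ Y)⟦b⟧) := by
  refine h.summand (M := X⟦b⟧ ⊞ Y⟦b⟧)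
    (biprod.lift ((biprod.fst : X ⊞ Y ⟶ X)⟦b⟧') ((biprod.snd : X ⊞ Y ⟶ Y)⟦b⟧'))
    (biprod.desc ((biprod.inl : X ⟶ X ⊞ Y)⟦b⟧') ((biprod.inr : Y ⟶ X ⊞ Y)⟦b⟧')) ?_ (h.sum hX hY)
  rw [biprod.lift_desc, ← Functor.map_comp, ← Functor.map_comp, ← Functor.map_add, biprod.total,
    CategoryTheory.Functor.map_id]

include hpar

lemma hom_zero {M N : C} (hM : P M) (hN : P N) {n : ℤ} (hne : n ≠ 0) (f : M ⟶ N⟦n⟧) : f = 0 := by
  rcases lt_or_gt_of_ne hne with h1 | h1
  · apply eq_zero_of_nm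
    rw [← cancel_mono (lShift N Mᘁ n).hom, zero_comp]
    exact hpar _ (h.tensor hN (h.dual hM)) n h1 _
  · exact h.positive hM hN n h1 f

include hn

lemma semi [IsIdempotentComplete C] [Nonempty Λ] : Semi (C := C) (fun b X => P (X⟦b⟧)) where
  retract {b X Y} i r hir hX := by
    refine h.summand (i⟦b⟧') (r⟦b⟧') ?_ hX
    rw [← Functor.map_comp, hir, CategoryTheory.Functor.map_id]
  orth {b c X Y} hbc hX hY f := by
    apply (shiftFunctor C b).map_injective
    rw [Functor.map_zero, ← cancel_mono ((shiftFunctorAdd' C c (b - c) b (by omega)).hom.app Y),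
      zero_comp]
    exact hom_zero h hpar hX hY (by omega) _
  regular {b X Y} hX hY f := by
    obtain ⟨g, hg⟩ := reg_hom h hn hX hY (f⟦b⟧')
    obtain ⟨g', rfl⟩ := (shiftFunctor C b).map_surjective g
    refine ⟨g', (shiftFunctor C b).map_injective ?_⟩
    rw [Functor.map_comp, Functor.map_comp]
    exact hg
  shift {b X} hX a c hac := P_iso h hX ((shiftFunctorAdd' C a c b hac).app X)
  sum {b X Y} hX hY := P_sum h b hX hY

lemma fil_all [IsTriangulated C] [IsIdempotentComplete C] [Nonempty Λ] (X : C) :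
    ∃ a, FilQ (fun b X => P (X⟦b⟧)) a X := by
  have hQ := semi h hpar hn
  have hX := h.generate X
  induction hX with
  | @of X hX =>
    have h1 : P (X⟦(0 : ℤ)⟧) := P_iso h hX ((shiftFunctorZero C ℤ).symm.app X)
    exact ⟨0, FilQ.step le_rfl (contractible_distinguished X) h1 (FilQ.zero (isZero_zero C))⟩
  | shift n _ ih =>
    obtain ⟨a, ha⟩ := ih
    exact ⟨a - n, ha.shift hQ n (a - n) (by omega)⟩
  | cone hT _ _ ih1 ih2 =>
    obtain ⟨a, ha⟩ := ih1
    obtain ⟨b, hb⟩ := ih2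
    exact FilQ.cone hQ hT ha hb
  | retract i r hir _ ih =>
    obtain ⟨a, ha⟩ := ih
    exact ⟨a, FilQ.retract hQ ha i r hir⟩

omit hpar in
/-- The Künneth components. -/
lemma exists_kunneth [IsIdempotentComplete C] (l : Λ) {N : C} (hN : P N) (n : ℤ) :
    ∃ (L : C) (f : N ⟶ L), (∀ l, (R l).Deg L n) ∧ IsIso ((R l).H.map (f⟦n⟧')) := by
  classical
  have hL : Nonempty Λ := ⟨l⟩
  obtain ⟨B, hB⟩ := (R l).bounded N
  let S : Finset ℤ := (Finset.Icc (-B : ℤ) B).erase n
  have hcop : IsCoprime (p N n) (∏ i ∈ S, p N i) :=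
    IsCoprime.prod_right fun i hi => h.coprime hN hN n i (Finset.ne_of_mem_erase hi).symm
  have h0 : pe (φ N) (p N n * ∏ i ∈ S, p N i) = 0 := by
    apply faithful_chow h hn l hN hN
    intro i
    by_cases hin : i = n
    · subst hin
      rw [pe_mul', Functor.map_comp, Functor.map_comp, char_pe h l i hN, zero_comp]
    · by_cases hi : i ∈ Finset.Icc (-B : ℤ) B
      · have hiS : i ∈ S := Finset.mem_erase.2 ⟨hin, hi⟩
        rw [← Finset.mul_prod_erase _ _ hiS, pe_mul, pe_mul', Functor.map_comp, Functor.map_comp,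
          Functor.map_comp, Functor.map_comp, char_pe h l i hN, zero_comp, zero_comp]
      · have h1 : IsZero ((R l).H.obj (N⟦i⟧)) := by
          apply hB
          rw [Finset.mem_Icc] at hi
          omega
        exact h1.eq_of_src _ _
  obtain ⟨e, he1, he2, he3⟩ := exists_idem hcop h0
  obtain ⟨L, i, r, h1, h2⟩ := IsIdempotentComplete.idempotents_split N (pe (φ N) e) he1
  have hi : i ≫ pe (φ N) e = i := by rw [← h2, reassoc_of% h1]
  have k1 : pe (φ L) (p N n) = 0 := by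
    have h3 : pe (φ L) (p N n) = i ≫ pe (φ N) (p N n) ≫ r := by
      rw [← pe_phi_natural h r, reassoc_of% h1]
    rw [h3, ← hi, Category.assoc, reassoc_of% he2, zero_comp, comp_zero]
  refine ⟨L, r, fun l => deg_of_kill h l (q := p N) (fun i j hij => h.coprime hN hN i j hij)
    (fun j => char_summand h l j i r h1 _ (char_pe h l j hN)) k1, ?_⟩
  refine ⟨(R l).H.map (i⟦n⟧'), ?_, ?_⟩
  · rw [← Functor.map_comp, ← Functor.map_comp, h2]
    have h3 : (R l).H.map ((𝟙 N - pe (φ N) e)⟦n⟧') = 0 := by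
      obtain ⟨u, v, huv⟩ := hcop
      have h4 : 𝟙 N - pe (φ N) e = (𝟙 N - pe (φ N) e) ≫ pe (φ N) u ≫ pe (φ N) (p N n) := by
        have h5 : 𝟙 N - pe (φ N) e = (𝟙 N - pe (φ N) e) ≫
            pe (φ N) (u * p N n + v * ∏ i ∈ S, p N i) := by
          rw [huv, pe_one, Category.comp_id]
        have h6 : (𝟙 N - pe (φ N) e) ≫ pe (φ N) (v * ∏ i ∈ S, p N i) = 0 := by
          rw [pe_mul, reassoc_of% he3, zero_comp]
        rw [pe_add, Preadditive.comp_add, h6, add_zero, pe_mul'] at h5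
        exact h5
      rw [h4, Functor.map_comp, Functor.map_comp, Functor.map_comp, Functor.map_comp,
        char_pe h l n hN, comp_zero, comp_zero]
    rw [Functor.map_sub, Functor.map_sub, sub_eq_zero] at h3
    rw [← h3, CategoryTheory.Functor.map_id, CategoryTheory.Functor.map_id]
  · rw [← Functor.map_comp, ← Functor.map_comp, h1, CategoryTheory.Functor.map_id,
      CategoryTheory.Functor.map_id]

omit h hpar hn in
lemma map_id_shift_zero {E₀ : Type w} [Field E₀] (R₀ : Realisation C E₀) {X Y : C} {a b : X ⟶ Y}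
    (hab : a = b) (i : ℤ) : R₀.H.map (a⟦i⟧') = R₀.H.map (b⟦i⟧') := by rw [hab]

/-- A realisation is conservative. -/
lemma conservative_fil [IsTriangulated C] [IsIdempotentComplete C] (l : Λ) :
    Conservative (R l) := by
  have hL : Nonempty Λ := ⟨l⟩
  have hQ := semi h hpar hn
  intro X hX
  obtain ⟨a, ha⟩ := fil_all h hpar hn X
  induction ha with
  | zero hz => exact hz
  | @step a b X K Z f g d hab hT pK hZ ih =>
    have h0 : d = 0 := hZ.to_zero hQ (c := b - 1) (by omega) (hQ.shift pK 1 (b - 1) (by omega)) d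
    obtain ⟨s, t, hs, ht, hts, htot⟩ := split_iso hT h0
    have hres : ∀ {W : C} (i : W ⟶ X) (r : X ⟶ W), i ≫ r = 𝟙 W →
        ∀ j : ℤ, IsZero ((R l).H.obj (W⟦j⟧)) := by
      intro W i r hir j
      rw [IsZero.iff_id_eq_zero]
      have h1 : 𝟙 ((R l).H.obj (W⟦j⟧)) = (R l).H.map (i⟦j⟧') ≫ (R l).H.map (r⟦j⟧') := by
        rw [← Functor.map_comp, ← Functor.map_comp, hir, CategoryTheory.Functor.map_id,
          CategoryTheory.Functor.map_id]
      rw [h1, (hX j).eq_of_tgt ((R l).H.map (i⟦j⟧')) 0, zero_comp]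
    have hZ0 : IsZero Z := ih (hres t g ht)
    have hK0 : IsZero K := by
      apply isZero_of_shift b
      rw [IsZero.iff_id_eq_zero]
      apply faithful_chow h hn l pK pK
      intro i
      have h1 := hres f s hs (b + i)
      have h2 : IsZero ((R l).H.obj (K⟦b⟧⟦i⟧)) :=
        h1.of_iso ((R l).H.mapIso ((shiftFunctorAdd C b i).app K).symm)
      exact h2.eq_of_src _ _
    exact isZero2 hT hK0 hZ0

omit h hpar hn in
lemma isIso_biprod_map {E₀ : Type w} [Field E₀] (R₀ : Realisation C E₀) {X X' Y Y' : C}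
    (f : X ⟶ X') (g : Y ⟶ Y') (hf : IsIso (R₀.H.map f)) (hg : IsIso (R₀.H.map g)) :
    IsIso (R₀.H.map (biprod.map f g)) := by
  refine ⟨R₀.H.map biprod.fst ≫ inv (R₀.H.map f) ≫ R₀.H.map biprod.inl +
    R₀.H.map biprod.snd ≫ inv (R₀.H.map g) ≫ R₀.H.map biprod.inr, ?_, ?_⟩
  · rw [Preadditive.comp_add, ← Functor.map_comp_assoc, ← Functor.map_comp_assoc,
      biprod.map_fst, biprod.map_snd, Functor.map_comp_assoc, Functor.map_comp_assoc,
      IsIso.hom_inv_id_assoc, IsIso.hom_inv_id_assoc, ← Functor.map_comp, ← Functor.map_comp,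
      ← Functor.map_add, biprod.total, CategoryTheory.Functor.map_id]
  · rw [Preadditive.add_comp]
    simp only [Category.assoc]
    rw [← Functor.map_comp, ← Functor.map_comp, biprod.inl_map, biprod.inr_map,
      Functor.map_comp, Functor.map_comp, IsIso.inv_hom_id_assoc, IsIso.inv_hom_id_assoc,
      ← Functor.map_comp, ← Functor.map_comp, ← Functor.map_add, biprod.total,
      CategoryTheory.Functor.map_id]

omit h hpar hn in
lemma deg_biprod {E₀ : Type w} [Field E₀] (R₀ : Realisation C E₀) {X Y : C} {n : ℤ}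
    (hX : R₀.Deg X n) (hY : R₀.Deg Y n) : R₀.Deg (X ⊞ Y) n := by
  intro i hi
  rw [IsZero.iff_id_eq_zero]
  have h1 : 𝟙 (R₀.H.obj ((X ⊞ Y)⟦i⟧)) =
      R₀.H.map (((biprod.fst : X ⊞ Y ⟶ X) ≫ biprod.inl + (biprod.snd : X ⊞ Y ⟶ Y) ≫ biprod.inr)⟦i⟧') := by
    rw [biprod.total, CategoryTheory.Functor.map_id, CategoryTheory.Functor.map_id]
  rw [h1, Functor.map_add, Functor.map_add, Functor.map_comp, Functor.map_comp, Functor.map_comp,
    Functor.map_comp, (hX i hi).eq_of_tgt (R₀.H.map ((biprod.fst : X ⊞ Y ⟶ X)⟦i⟧')) 0,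
    (hY i hi).eq_of_tgt (R₀.H.map ((biprod.snd : X ⊞ Y ⟶ Y)⟦i⟧')) 0, zero_comp, zero_comp, add_zero]

/-- Every object has a map to an object in degree zero which is an isomorphism on `H^0`. -/
lemma exists_top [IsTriangulated C] [IsIdempotentComplete C] (l : Λ) (X : C) :
    ∃ (M : C) (f : X ⟶ M), (∀ l, (R l).Deg M 0) ∧ IsIso ((R l).H.map f) := by
  have hL : Nonempty Λ := ⟨l⟩
  have hQ := semi h hpar hn
  obtain ⟨a, ha⟩ := fil_all h hpar hn X
  induction ha with
  | @zero a X hz =>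
    refine ⟨0, 0, fun l i _ => (R l).H.map_isZero (isZero_shift (isZero_zero C) i), ?_⟩
    have h1 : IsZero ((R l).H.obj X) := (R l).H.map_isZero hz
    have h2 : IsZero ((R l).H.obj (0 : C)) := (R l).H.map_isZero (isZero_zero C)
    exact ⟨0, h1.eq_of_src _ _, h2.eq_of_src _ _⟩
  | @step a b X K Z f g d hab hT pK hZ ih =>
    have h0 : d = 0 := hZ.to_zero hQ (c := b - 1) (by omega) (hQ.shift pK 1 (b - 1) (by omega)) d
    obtain ⟨e, -, -⟩ : ∃ e : X ≅ K ⊞ Z, f ≫ e.hom = biprod.inl ∧ g = e.hom ≫ biprod.snd :=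
      exists_iso_binaryBiproduct_of_distTriang _ hT h0
    obtain ⟨M₂, f₂, hM₂, hf₂⟩ := ih
    obtain ⟨L, q, hL, hq⟩ := exists_kunneth h hn l pK (-b)
    -- the map `K ⟶ L⟦-b⟧`
    let u : K ≅ K⟦b⟧⟦-b⟧ := (shiftEquiv C b).unitIso.app K
    have hf₁ : IsIso ((R l).H.map (u.hom ≫ q⟦-b⟧')) := by
      rw [Functor.map_comp]
      infer_instance
    refine ⟨L⟦-b⟧ ⊞ M₂, e.hom ≫ biprod.map (u.hom ≫ q⟦-b⟧') f₂, fun l => ?_, ?_⟩
    · exact deg_biprod (R l) ((hL l).shift (-b) 0 (by omega)) (hM₂ l)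
    · have h1 := isIso_biprod_map (R l) _ _ hf₁ hf₂
      rw [Functor.map_comp]
      infer_instance

/-- The t-structure exists. -/
theorem exists_t [IsTriangulated C] [IsIdempotentComplete C] [Nonempty Λ] :
    ∃ t : TStructure C, IsMotivic t R := by
  obtain ⟨l⟩ := ‹Nonempty Λ›
  refine exists_motivic (l₀ := l) (conservative_fil h hpar hn l) ?_
  intro X _
  obtain ⟨M, f, hM, hf⟩ := exists_top h hpar hn l X
  refine ⟨𝟙_ C, M, (λ_ X).hom ≫ f, fun _ => deg_unit, not_isZero_unit (R l), hM, ?_⟩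
  rw [Functor.map_comp]
  infer_instance

end

end Pool.Agent.T6helper6.FF
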