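import Pool.Agent.T6helper6.MT.Final

/-!
# Motives over a finite field: the structure given by the Frobenius endomorphisms
-/

set_option autoImplicit false

open CategoryTheory Limits MonoidalCategory Pretriangulated Triangulated ZeroObject
open scoped Polynomial

namespace Pool.Agent.T6helper6.FF

open Pool.Agent.Y116.MT Pool.Agent.V1178.MT Pool.Agent.T6helper6.MT

universe v u w

/-- The polynomial `q` with rational coefficients annihilates the endomorphism `f` of a vector
space over a field of characteristic zero. -/
def Kills {F : Type w} [Field F] [CharZero F] {V : ModuleCat.{w} F} (f : V ⟶ V) (q : ℚ[X]) :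
    Prop :=
  Polynomial.aeval f.hom (q.map (algebraMap ℚ F)) = 0

section

variable {C : Type u} [Category.{v} C] [Preadditive C] [HasZeroObject C] [HasShift C ℤ]
  [∀ n : ℤ, (shiftFunctor C n).Additive] [Pretriangulated C] [MonoidalCategory C]

/-- The class `P` contains the unit and is closed under sums, tensor products, duals and direct
summands. -/
structure IsRigidClass [RightRigidCategory C] (P : C → Prop) : Prop where
  one : P (𝟙_ C)
  sum {M N : C} : P M → P N → P (M ⊞ N)
  tensor {M N : C} : P M → P N → P (M ⊗ N)
  dual {M : C} : P M → P Mᘁ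
  summand {M N : C} (i : N ⟶ M) (r : M ⟶ N) : i ≫ r = 𝟙 N → P M → P N

/-- The class `P` generates `C`, there are no morphisms of positive degree between its members,
and the endomorphisms of the unit are the rational numbers: properties of Chow motives. -/
structure IsChowClass [Linear ℚ C] (P : C → Prop) : Prop where
  unit_scalar (f : 𝟙_ C ⟶ 𝟙_ C) : ∃ q : ℚ, f = q • 𝟙 _
  generate (X : C) : Gen P X
  positive {M N : C} : P M → P N → ∀ n : ℤ, 0 < n → ∀ f : M ⟶ N⟦n⟧, f = 0

/-- `φ` is a natural family of endomorphisms which is compatible with the shifts. -/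
structure IsNatural (φ : ∀ X : C, X ⟶ X) : Prop where
  natural {X Y : C} (f : X ⟶ Y) : f ≫ φ Y = φ X ≫ f
  shift (X : C) (n : ℤ) : φ (X⟦n⟧) = (φ X)⟦n⟧'

variable [SymmetricCategory C] [TensorTriangulated C]

/-- The polynomial `p M i` with rational coefficients annihilates the endomorphism `φ M` on the
`i`-th cohomology of `M`, for all `M` in `P` and all realisations, and these polynomials are coprime
in different degrees. For the Frobenius endomorphisms `φ` of Chow motives over a finite field, `p M i`
is the characteristic polynomial on the `i`-th cohomology. -/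
structure IsPure {Λ : Type*} {E : Λ → Type w} [∀ l, Field (E l)] [∀ l, CharZero (E l)]
    (R : ∀ l, Realisation C (E l)) (P : C → Prop) (φ : ∀ X : C, X ⟶ X)
    (p : C → ℤ → ℚ[X]) : Prop where
  annihilate {M : C} : P M → ∀ (l : Λ) (i : ℤ), Kills ((R l).H.map ((φ M)⟦i⟧')) (p M i)
  coprime {M N : C} : P M → P N → ∀ i j : ℤ, i ≠ j → IsCoprime (p M i) (p N j)

/-- `φ` is a family of Frobenius endomorphisms, with the class `P` of Chow motives and the
polynomials `p M i`, the characteristic polynomials of the Frobenius endomorphism on the `i`-th
cohomology of `M`. -/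
structure IsFrobenius [RightRigidCategory C] [Linear ℚ C] {Λ : Type*} {E : Λ → Type w}
    [∀ l, Field (E l)] [∀ l, CharZero (E l)]
    (R : ∀ l, Realisation C (E l)) (P : C → Prop) (φ : ∀ X : C, X ⟶ X)
    (p : C → ℤ → ℚ[X]) : Prop extends
    IsRigidClass P, IsChowClass P, IsNatural φ, IsPure R P φ p

end

end Pool.Agent.T6helper6.FF
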