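import Pool.Agent.T6helper6.FF.Poly
import Pool.Agent.T6helper6.FF.Defs

/-!
# Faithfulness and regularity
-/

set_option autoImplicit false
set_option linter.unusedSectionVars false
set_option linter.unusedSimpArgs false
set_option backward.isDefEq.respectTransparency false
set_option backward.defeqAttrib.useBackward true

open CategoryTheory Limits MonoidalCategory Pretriangulated Triangulated ZeroObject
open scoped Polynomial

namespace Pool.Agent.T6helper6.FF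

open Pool.Agent.Y116.MT Pool.Agent.V1178.MT Pool.Agent.T6helper6.MT

universe v u w

section

variable {C : Type u} [Category.{v} C] [Preadditive C] [HasZeroObject C] [HasShift C ℤ]
  [∀ n : ℤ, (shiftFunctor C n).Additive] [Pretriangulated C] [MonoidalCategory C]
  [SymmetricCategory C] [TensorTriangulated C]

lemma lShift_natural_left {X X' : C} (f : X ⟶ X') (Y : C) (n : ℤ) :
    f⟦n⟧' ▷ Y ≫ (lShift X' Y n).hom = (lShift X Y n).hom ≫ (f ▷ Y)⟦n⟧' := by
  simp only [lShift, Iso.trans_hom, Functor.mapIso_hom, Category.assoc]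
  rw [BraidedCategory.braiding_naturality_left_assoc, ← Category.assoc (Y ◁ f⟦n⟧'),
    rShift_natural_right, Category.assoc, ← Functor.map_comp, ← Functor.map_comp,
    BraidedCategory.braiding_naturality_right]

lemma shiftTensorIso_natural {X X' : C} (f : X ⟶ X') (Y : C) (i : ℤ) :
    f⟦i⟧' ▷ (Y⟦-i⟧) ≫ (shiftTensorIso X' Y i).hom = (shiftTensorIso X Y i).hom ≫ (f ▷ Y) := by
  simp only [shiftTensorIso, Iso.trans_hom, Functor.mapIso_hom, Category.assoc]
  rw [← Category.assoc (f⟦i⟧' ▷ (Y⟦-i⟧)), rShift_natural_left, Category.assoc, ← Category.assoc ((f⟦i⟧' ▷ Y)⟦-i⟧'),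
    ← Functor.map_comp, lShift_natural_left, Functor.map_comp, Category.assoc]
  congr 2
  exact (shiftEquiv C i).unitIso.inv.naturality (f ▷ Y)

variable {E : Type w} [Field E] {R : Realisation C E}

open Functor.LaxMonoidal in
/-- Künneth: a map which is zero on cohomology stays so after tensoring. -/
lemma H_whisker_zero {X X' : C} (f : X ⟶ X') (hf : ∀ i : ℤ, R.H.map (f⟦i⟧') = 0) (Y : C) :
    R.H.map (f ▷ Y) = 0 := by
  ext z
  obtain ⟨t, rfl⟩ := (R.kunneth X Y).2 z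
  induction t using DirectSum.induction_on with
  | zero => simp
  | add a b ha hb => rw [map_add, map_add, ha, hb]; simp
  | of i x =>
    have h1 : (μ R.H (X⟦i⟧) (Y⟦-i⟧) ≫ R.H.map (shiftTensorIso X Y i).hom) ≫ R.H.map (f ▷ Y) = 0 := by
      rw [Category.assoc, ← Functor.map_comp, ← shiftTensorIso_natural, Functor.map_comp,
        ← μ_natural_left_assoc, hf]
      have h2 : (0 : R.H.obj (X⟦i⟧) ⟶ R.H.obj (X'⟦i⟧)) ▷ R.H.obj (Y⟦-i⟧) = 0 :=
        (tensorRight _).map_zero _ _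
      rw [h2, zero_comp]
    have h2 : kunnethMap R.H X Y (DirectSum.of (fun i : ℤ => (R.H.obj (X⟦i⟧) ⊗ R.H.obj (Y⟦-i⟧) : ModuleCat.{w} E)) i x) =
        (μ R.H (X⟦i⟧) (Y⟦-i⟧) ≫ R.H.map (shiftTensorIso X Y i).hom).hom x := by
      simp only [kunnethMap]
      exact DirectSum.toModule_lof (R := E)
        (M := fun i : ℤ => (R.H.obj (X⟦i⟧) ⊗ R.H.obj (Y⟦-i⟧) : ModuleCat.{w} E))
        (φ := fun i : ℤ => (μ R.H (X⟦i⟧) (Y⟦-i⟧) ≫ R.H.map (shiftTensorIso X Y i).hom).hom) i x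
    rw [h2]
    exact LinearMap.congr_fun (congrArg ModuleCat.Hom.hom h1) x

/-- A nonzero rational endomorphism of the unit has a nonzero realisation. -/
lemma scalar_ne_zero [Linear ℚ C] [CharZero E] (R : Realisation C E) {q : ℚ} (hq : q ≠ 0) :
    R.H.map (q • 𝟙 (𝟙_ C)) ≠ 0 := by
  intro h
  have h1 := H_qsmul R.H q (𝟙 (𝟙_ C))
  rw [h, CategoryTheory.Functor.map_id] at h1
  apply not_isZero_H_unit R
  rw [IsZero.iff_id_eq_zero]
  have h2 : algebraMap ℚ E q ≠ 0 := by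
    rw [Ne, map_eq_zero]
    exact hq
  ext x
  have h3 := LinearMap.congr_fun h1 x
  have h4 : (0 : R.H.obj (𝟙_ C)) = algebraMap ℚ E q • x := h3
  exact ((smul_eq_zero.1 h4.symm).resolve_left h2)

end

section Dual

variable {C : Type u} [Category.{v} C] [Preadditive C] [HasZeroObject C] [HasShift C ℤ]
  [∀ n : ℤ, (shiftFunctor C n).Additive] [Pretriangulated C] [MonoidalCategory C]
  [SymmetricCategory C] [TensorTriangulated C] [RightRigidCategory C]

/-- `(Y⟦n⟧) ⊗ X ≅ Y ⊗ (X⟦n⟧)`, naturally in `Y`. -/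
noncomputable def shiftTensorNat (X : C) (n : ℤ) :
    shiftFunctor C n ⋙ tensorRight X ≅ tensorRight (X⟦n⟧) :=
  NatIso.ofComponents (fun Y => lShift Y X n ≪≫ (rShift Y X n).symm) (by
    intro Y Y' f
    change f⟦n⟧' ▷ X ≫ (lShift Y' X n).hom ≫ (rShift Y' X n).inv =
      ((lShift Y X n).hom ≫ (rShift Y X n).inv) ≫ f ▷ (X⟦n⟧)
    rw [← Category.assoc (f⟦n⟧' ▷ X), lShift_natural_left, Category.assoc, Category.assoc]
    congr 1
    rw [Iso.comp_inv_eq, Category.assoc, rShift_natural_left, Iso.inv_hom_id_assoc])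

/-- The dual of a shift. -/
noncomputable def dualShift (X : C) (n : ℤ) :
    tensorRight Xᘁ ⋙ shiftFunctor C (-n) ≅ tensorRight (X⟦n⟧)ᘁ :=
  Adjunction.rightAdjointUniq
    (((shiftEquiv C n).toAdjunction.comp (tensorRightAdjunction X Xᘁ)).ofNatIsoLeft
      (shiftTensorNat X n))
    (tensorRightAdjunction (X⟦n⟧) (X⟦n⟧)ᘁ)

/-- `X⟦n⟧ ⊗ (X⟦n⟧)ᘁ ≅ X ⊗ Xᘁ`. -/
noncomputable def endShift (X : C) (n : ℤ) : X⟦n⟧ ⊗ (X⟦n⟧)ᘁ ≅ X ⊗ Xᘁ :=
  (dualShift X n).symm.app (X⟦n⟧) ≪≫ (shiftFunctor C (-n)).mapIso (lShift X Xᘁ n) ≪≫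
    (shiftEquiv C n).unitIso.symm.app (X ⊗ Xᘁ)

end Dual

section

variable {C : Type u} [Category.{v} C] [Preadditive C] [HasZeroObject C] [HasShift C ℤ]
  [∀ n : ℤ, (shiftFunctor C n).Additive] [Pretriangulated C] [MonoidalCategory C]
  [SymmetricCategory C] [TensorTriangulated C] [MonoidalPreadditive C] [RightRigidCategory C]
  [Linear ℚ C] {Λ : Type*} {E : Λ → Type w} [∀ l, Field (E l)] [∀ l, CharZero (E l)]
  {R : ∀ l, Realisation C (E l)} {P : C → Prop} {φ : ∀ X : C, X ⟶ X} {p : C → ℤ → ℚ[X]}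
  (h : IsFrobenius R P φ p)
  (hn : ∀ M, P M → ∀ f : 𝟙_ C ⟶ M, f ≠ 0 → ∃ g : M ⟶ 𝟙_ C, f ≫ g ≠ 0)

include h hn

/-- The realisations are faithful on Chow motives. -/
lemma faithful_chow (l : Λ) {M N : C} (hM : P M) (hN : P N) (f : M ⟶ N)
    (hf : ∀ i : ℤ, (R l).H.map (f⟦i⟧') = 0) : f = 0 := by
  apply eq_zero_of_nm
  by_contra h0
  obtain ⟨g, hg⟩ := hn _ (h.tensor hN (h.dual hM)) (nm f) h0
  obtain ⟨q, hq⟩ := h.unit_scalar (nm f ≫ g)
  have hq0 : q ≠ 0 := by
    rintro rfl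
    rw [zero_smul] at hq
    exact hg hq
  apply scalar_ne_zero (R l) hq0
  rw [← hq, nm, Functor.map_comp, Functor.map_comp, H_whisker_zero f hf, comp_zero, zero_comp]

end

end Pool.Agent.T6helper6.FF
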