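import Pool.Agent.T6helper6.FF.Back
import Pool.Agent.T6helper6.MT.Coh

/-!
# The motivic t-structure over a finite field implies the conjectures of Parshin and Beilinson
-/

set_option autoImplicit false
set_option linter.unusedSectionVars false
set_option linter.unusedSimpArgs false
set_option backward.isDefEq.respectTransparency false
set_option backward.defeqAttrib.useBackward true

open CategoryTheory Limits MonoidalCategory Pretriangulated Triangulated ZeroObject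
open scoped Polynomial

namespace Pool.Agent.T6helper6.FF

open Pool.Agent.Y116.MT Pool.Agent.V1178.MT Pool.Agent.T6helper6.MT

universe v u w

section

variable {C : Type u} [Category.{v} C] [Preadditive C] [HasZeroObject C] [HasShift C ℤ]
  [∀ n : ℤ, (shiftFunctor C n).Additive] [Pretriangulated C] [IsTriangulated C]
  [MonoidalCategory C]
  [SymmetricCategory C] [TensorTriangulated C] [MonoidalPreadditive C] [RightRigidCategory C]
  [Linear ℚ C] {Λ : Type*} {E : Λ → Type w} [∀ l, Field (E l)] [∀ l, CharZero (E l)]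
  {R : ∀ l, Realisation C (E l)} {P : C → Prop} {φ : ∀ X : C, X ⟶ X} {p : C → ℤ → ℚ[X]}
  (h : IsFrobenius R P φ p)

include h

lemma idem_unit (l : Λ) (e : 𝟙_ C ⟶ 𝟙_ C) (he : e ≫ e = e) : e = 0 ∨ e = 𝟙 _ := by
  obtain ⟨q, rfl⟩ := h.unit_scalar e
  rw [Linear.smul_comp, Linear.comp_smul, Category.comp_id, smul_smul] at he
  have h1 : (q * q - q) • 𝟙 (𝟙_ C) = 0 := by rw [sub_smul, he, sub_self]
  have h2 : q * q - q = 0 := by
    by_contra h3
    apply scalar_ne_zero (R l) h3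
    rw [h1, Functor.map_zero]
  have h3 : q * (q - 1) = 0 := by rw [← h2]; ring
  rcases mul_eq_zero.1 h3 with h4 | h4
  · left
    rw [h4, zero_smul]
  · right
    rw [sub_eq_zero.1 h4, one_smul]

variable {t : TStructure C} {l : Λ} (ht : TensorCompat t) (he : TExact t (R l))
  (hu : Hrt t (𝟙_ C))

include ht he hu

/-- The annihilator of the Frobenius endomorphism of an object in one degree. -/
lemma kill_cn {X : C} {n : ℤ} (hX : Cn t n X) {q : ℚ[X]}
    (hq : (R l).H.map ((pe (φ X) q)⟦n⟧') = 0) : pe (φ X) q = 0 := by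
  have h1 : Hrt t (X⟦n⟧) := hX.shift n 0 (by omega)
  apply (shiftFunctor C n).map_injective
  rw [Functor.map_zero]
  exact faithful_heart ht he hu (idem_unit h l) h1 h1 _ hq

/-- The annihilator of the Frobenius endomorphism of a bounded object. -/
lemma kill_bounded {q : ℤ → ℚ[X]} (k : ℕ) : ∀ (X : C) (a b : ℤ), b - a < k → t.IsGE X a →
    t.IsLE X b → (∀ n, (R l).H.map ((pe (φ X) (q n))⟦n⟧') = 0) →
      ∃ Q : ℚ[X], pe (φ X) Q = 0 ∧
        ∀ r : ℚ[X], (∀ n, a ≤ n → n ≤ b → IsCoprime r (q n)) → IsCoprime r Q := by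
  induction k with
  | zero =>
    intro X a b hab h1 h2 _
    have h3 : IsZero X := t.isZero X b a (by omega)
    exact ⟨1, h3.eq_of_src _ _, fun r _ => isCoprime_one_right⟩
  | succ k ih =>
    intro X a b hab h1 h2 hX
    by_cases hba : b < a
    · have h3 : IsZero X := t.isZero X b a (by omega)
      exact ⟨1, h3.eq_of_src _ _, fun r _ => isCoprime_one_right⟩
    obtain ⟨A, B, hA, hB, f, g, d, hT⟩ := t.exists_triangle X a (a + 1) rfl
    have hA1 : t.IsLE A a := ⟨hA⟩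
    have hB1 : t.IsGE B (a + 1) := ⟨hB⟩
    have hA2 : t.IsGE A a := isGE1 hT h1 (t.isGE_of_ge B (a - 1) (a + 1))
    have hB2 : t.IsLE B b := isLE3 hT (@TStructure.isLE_of_le _ _ _ _ _ _ _ t _ a (b + 1)
      (by omega) hA1) h2
    have kA : pe (φ A) (q a) = 0 := by
      apply kill_cn h ht he hu ⟨hA1, hA2⟩
      have e1 := isIso_trunc he hT hB1
      rw [← cancel_mono ((R l).H.map (f⟦a⟧')), zero_comp, ← Functor.map_comp, ← Functor.map_comp,
        ← pe_phi_natural h f, Functor.map_comp, Functor.map_comp, hX, comp_zero]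
    obtain ⟨Q, hQ1, hQ2⟩ := ih B (a + 1) b (by push_cast at hab; omega) hB1 hB2 (fun n => by
      by_cases hn : n ≤ a
      · exact (he.isGE hB1 n (by omega)).eq_of_src _ _
      · have e1 : IsIso ((R l).H.map (g⟦n⟧')) := isIso_trunc' he hT
          (@TStructure.isLE_of_le _ _ _ _ _ _ _ t _ a (n - 1) (by omega) hA1)
        rw [← cancel_epi ((R l).H.map (g⟦n⟧')), comp_zero, ← Functor.map_comp, ← Functor.map_comp,
          pe_phi_natural h g, Functor.map_comp, Functor.map_comp, hX, zero_comp])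
    refine ⟨Q * q a, ?_, fun r hr => ?_⟩
    · obtain ⟨c, hc⟩ := ce2 hT (pe (φ X) Q) (by
        rw [← pe_phi_natural h g, hQ1, comp_zero])
      rw [pe_mul', hc, Category.assoc, pe_phi_natural h f, kA, zero_comp, comp_zero]
    · exact (hQ2 r fun n hn1 hn2 => hr n (by omega) hn2).mul_right (hr a le_rfl (by omega))

omit ht he hu in
lemma pe_shift_zero {X : C} {Q : ℚ[X]} (hQ : pe (φ X) Q = 0) (n : ℤ) :
    pe (φ (X⟦n⟧)) Q = 0 := by
  rw [h.shift, ← shift_pe, hQ, Functor.map_zero]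

omit ht he hu in
/-- Vanishing of the morphisms between objects with coprime annihilators. -/
lemma hom_zero_coprime {X Y : C} {Q Q' : ℚ[X]} (hX : pe (φ X) Q = 0) (hY : pe (φ Y) Q' = 0)
    (hQ : IsCoprime Q Q') (n : ℤ) (f : X ⟶ Y⟦n⟧) : f = 0 :=
  coprime_zero (h.natural f) hQ hX (pe_shift_zero h hY n)

/-- The decomposition of a Chow motive. -/
lemma decompose (hc : Conservative (R l)) {M : C} (hM : P M) :
    ∃ (A B A' K : C) (f : A ⟶ M) (g : M ⟶ B) (s : M ⟶ A) (r : B ⟶ M) (f' : A' ⟶ A) (g' : A ⟶ K)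
      (s' : A ⟶ A') (r' : K ⟶ A), f ≫ s = 𝟙 A ∧ s ≫ f + g ≫ r = 𝟙 M ∧ r' ≫ g' = 𝟙 K ∧
        s' ≫ f' + g' ≫ r' = 𝟙 A ∧ Hrt t K ∧ P K ∧
        (∀ (n : ℤ) (u : 𝟙_ C ⟶ B⟦n⟧), u = 0) ∧ ∀ (n : ℤ) (u : 𝟙_ C ⟶ A'⟦n⟧), u = 0 := by
  obtain ⟨a, b, hab, ha, hb⟩ := exists_bounds he hc M
  obtain ⟨A, B, hA, hB, f, g, d, hT⟩ := t.exists_triangle M 0 1 rfl
  have hA1 : t.IsLE A 0 := ⟨hA⟩
  have hB1 : t.IsGE B 1 := ⟨hB⟩
  obtain ⟨A', K, hA', hK, f', g', d', hT'⟩ := t.exists_triangle A (-1) 0 (by omega)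
  have hA'1 : t.IsLE A' (-1) := ⟨hA'⟩
  have hK1 : t.IsGE K 0 := ⟨hK⟩
  have hK2 : t.IsLE K 0 := isLE3 hT' (t.isLE_of_le A' (-1) (0 + 1)) hA1
  -- bounds
  let a₀ : ℤ := min a 0
  let b₀ : ℤ := max b 0
  have ha₀ : t.IsGE M a₀ := @TStructure.isGE_of_ge _ _ _ _ _ _ _ t _ a₀ a (min_le_left _ _) ha
  have hb₀ : t.IsLE M b₀ := @TStructure.isLE_of_le _ _ _ _ _ _ _ t _ b b₀ (le_max_left _ _) hb
  have hAge : t.IsGE A a₀ := isGE1 hT ha₀ (@TStructure.isGE_of_ge _ _ _ _ _ _ _ t _ (a₀ - 1) 1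
    (by have := min_le_right a 0; omega) hB1)
  have hBle : t.IsLE B b₀ := isLE3 hT (@TStructure.isLE_of_le _ _ _ _ _ _ _ t _ 0 (b₀ + 1)
    (by have := le_max_right b 0; omega) hA1) hb₀
  have hA'ge : t.IsGE A' a₀ := isGE1 hT' hAge (@TStructure.isGE_of_ge _ _ _ _ _ _ _ t _ (a₀ - 1) 0
    (by have := min_le_right a 0; omega) hK1)
  -- the annihilators on cohomology
  have cM : ∀ n, (R l).H.map ((pe (φ M) (p M n))⟦n⟧') = 0 := fun n => char_pe h l n hM
  have cA : ∀ n, (R l).H.map ((pe (φ A) (p M n))⟦n⟧') = 0 := by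
    intro n
    by_cases hn : n ≤ 0
    · have e1 : IsIso ((R l).H.map (f⟦n⟧')) := isIso_trunc he hT
        (@TStructure.isGE_of_ge _ _ _ _ _ _ _ t _ (n + 1) 1 (by omega) hB1)
      rw [← cancel_mono ((R l).H.map (f⟦n⟧')), zero_comp, ← Functor.map_comp, ← Functor.map_comp,
        ← pe_phi_natural h f, Functor.map_comp, Functor.map_comp, cM, comp_zero]
    · exact (he.isLE hA1 n (by omega)).eq_of_src _ _
  have cB : ∀ n, (R l).H.map ((pe (φ B) (p M n))⟦n⟧') = 0 := by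
    intro n
    by_cases hn : n ≤ 0
    · exact (he.isGE hB1 n (by omega)).eq_of_src _ _
    · have e1 : IsIso ((R l).H.map (g⟦n⟧')) := isIso_trunc' he hT
        (@TStructure.isLE_of_le _ _ _ _ _ _ _ t _ 0 (n - 1) (by omega) hA1)
      rw [← cancel_epi ((R l).H.map (g⟦n⟧')), comp_zero, ← Functor.map_comp, ← Functor.map_comp,
        pe_phi_natural h g, Functor.map_comp, Functor.map_comp, cM, zero_comp]
  have cA' : ∀ n, (R l).H.map ((pe (φ A') (p M n))⟦n⟧') = 0 := by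
    intro n
    by_cases hn : n ≤ -1
    · have e1 : IsIso ((R l).H.map (f'⟦n⟧')) := isIso_trunc he hT'
        (@TStructure.isGE_of_ge _ _ _ _ _ _ _ t _ (n + 1) 0 (by omega) hK1)
      rw [← cancel_mono ((R l).H.map (f'⟦n⟧')), zero_comp, ← Functor.map_comp, ← Functor.map_comp,
        ← pe_phi_natural h f', Functor.map_comp, Functor.map_comp, cA, comp_zero]
    · exact (he.isLE hA'1 n (by omega)).eq_of_src _ _
  have cK : (R l).H.map ((pe (φ K) (p M 0))⟦(0 : ℤ)⟧') = 0 := by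
    have e1 : IsIso ((R l).H.map (g'⟦(0 : ℤ)⟧')) := isIso_trunc' he hT' (by simpa using hA'1)
    rw [← cancel_epi ((R l).H.map (g'⟦(0 : ℤ)⟧')), comp_zero, ← Functor.map_comp,
      ← Functor.map_comp, pe_phi_natural h g', Functor.map_comp, Functor.map_comp, cA, zero_comp]
  have kK : pe (φ K) (p M 0) = 0 := kill_cn h ht he hu ⟨hK2, hK1⟩ cK
  obtain ⟨QB, kB, copB⟩ := kill_bounded h ht he hu (q := p M) (b₀ - 1 + 1).toNat B 1 b₀
    (by have := le_max_right b 0; omega) hB1 hBle cB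
  obtain ⟨QA, kA, copA⟩ := kill_bounded h ht he hu (q := p M) (0 - a₀ + 1).toNat A a₀ 0
    (by have := min_le_right a 0; omega) hAge hA1 cA
  obtain ⟨QA', kA', copA'⟩ := kill_bounded h ht he hu (q := p M) (-1 - a₀ + 1).toNat A' a₀ (-1)
    (by have := min_le_right a 0; omega) hA'ge hA'1 cA'
  have k1 : pe (φ (𝟙_ C)) (p (𝟙_ C) 0) = 0 := kill_cn h ht he hu hu (char_pe h l 0 h.one)
  have hd : d = 0 := hom_zero_coprime h kB kA
    (copA _ fun n _ hn2 => (copB _ fun m hm1 _ =>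
      h.coprime hM hM n m (by omega)).symm) 1 d
  have hd' : d' = 0 := hom_zero_coprime h kK kA'
    (copA' _ fun n _ hn2 => h.coprime hM hM 0 n (by omega)) 1 d'
  obtain ⟨s, r, hs, hr, -, htot⟩ := split_iso hT hd
  obtain ⟨s', r', hs', hr', -, htot'⟩ := split_iso hT' hd'
  have PA : P A := h.summand f s hs hM
  have PK : P K := h.summand r' g' hr' PA
  exact ⟨A, B, A', K, f, g, s, r, f', g', s', r', hs, htot, hr', htot', ⟨hK2, hK1⟩, PK,
    fun n u => hom_zero_coprime h k1 kB (copB _ fun m hm1 _ =>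
      h.coprime h.one hM 0 m (by omega)) n u,
    fun n u => hom_zero_coprime h k1 kA' (copA' _ fun m _ hm2 =>
      h.coprime h.one hM 0 m (by omega)) n u⟩

/-- Parshin's conjecture. -/
lemma parshin (hc : Conservative (R l)) {M : C} (hM : P M) (n : ℤ) (hn : n < 0)
    (u : 𝟙_ C ⟶ M⟦n⟧) : u = 0 := by
  obtain ⟨A, B, A', K, f, g, s, r, f', g', s', r', hs, htot, hr', htot', hK, PK, zB, zA'⟩ :=
    decompose h ht he hu hc hM
  have h1 : u = u ≫ (s ≫ f + g ≫ r)⟦n⟧' := by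
    rw [htot, CategoryTheory.Functor.map_id, Category.comp_id]
  have h2 : u ≫ g⟦n⟧' = 0 := zB n _
  have h3 : u ≫ s⟦n⟧' = 0 := by
    have h4 : u ≫ s⟦n⟧' = (u ≫ s⟦n⟧') ≫ (s' ≫ f' + g' ≫ r')⟦n⟧' := by
      rw [htot', CategoryTheory.Functor.map_id, Category.comp_id]
    have h5 : (u ≫ s⟦n⟧') ≫ s'⟦n⟧' = 0 := zA' n _
    have h6 : (u ≫ s⟦n⟧') ≫ g'⟦n⟧' = 0 := by
      have h8 : t.IsGE K 0 := hK.2
      have h7 : t.IsGE (K⟦n⟧) (-n) := t.isGE_shift K 0 n (-n)
      exact t.zero_of_isLE_of_isGE _ 0 (-n) (by omega) hu.1 h7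
    rw [h4, Functor.map_add, Preadditive.comp_add, Functor.map_comp, Functor.map_comp,
      ← Category.assoc _ (s'⟦n⟧'), h5, zero_comp, ← Category.assoc _ (g'⟦n⟧'), h6, zero_comp,
      add_zero]
  rw [h1, Functor.map_add, Preadditive.comp_add, Functor.map_comp, Functor.map_comp,
    reassoc_of% h3, reassoc_of% h2, zero_comp, zero_comp, add_zero]

/-- Rational and numerical equivalence agree. -/
lemma rat_num (hc : Conservative (R l)) {M : C} (hM : P M) (u : 𝟙_ C ⟶ M) (hu0 : u ≠ 0) :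
    ∃ v : M ⟶ 𝟙_ C, u ≫ v ≠ 0 := by
  obtain ⟨A, B, A', K, f, g, s, r, f', g', s', r', hs, htot, hr', htot', hK, PK, zB, zA'⟩ :=
    decompose h ht he hu hc hM
  have zB0 : ∀ x : 𝟙_ C ⟶ B, x = 0 := fun x => by
    rw [← cancel_mono ((shiftFunctorZero C ℤ).inv.app B), zero_comp]
    exact zB 0 _
  have zA0 : ∀ x : 𝟙_ C ⟶ A', x = 0 := fun x => by
    rw [← cancel_mono ((shiftFunctorZero C ℤ).inv.app A'), zero_comp]
    exact zA' 0 _
  have h1 : u = (u ≫ s) ≫ f := by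
    have h2 : u = u ≫ (s ≫ f + g ≫ r) := by rw [htot, Category.comp_id]
    rw [Preadditive.comp_add, ← Category.assoc, ← Category.assoc, zB0 (u ≫ g), zero_comp,
      add_zero] at h2
    exact h2
  have h2 : u ≫ s = (u ≫ s ≫ g') ≫ r' := by
    have h3 : u ≫ s = (u ≫ s) ≫ (s' ≫ f' + g' ≫ r') := by rw [htot', Category.comp_id]
    rw [Preadditive.comp_add, ← Category.assoc _ s', zA0 ((u ≫ s) ≫ s'), zero_comp,
      zero_add] at h3
    rw [h3]
    simp only [Category.assoc, reassoc_of% hr']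
  have h3 : u ≫ s ≫ g' ≠ 0 := by
    intro h4
    rw [h4, zero_comp] at h2
    rw [h2, zero_comp] at h1
    exact hu0 h1
  obtain ⟨v, hv⟩ := heart_pairing ht he hu (idem_unit h l) hK P h.one
    (fun X hX => h.tensor hX PK) (fun X hX m hm f => h.positive hX h.one m hm f) _ h3
  exact ⟨s ≫ g' ≫ v, by simpa only [Category.assoc] using hv⟩

end

end Pool.Agent.T6helper6.FF
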