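import Pool.Agent.T6helper6.MT.Pot

/-!
# Polynomials in endomorphisms
-/

set_option autoImplicit false
set_option linter.unusedSectionVars false
set_option linter.unusedSimpArgs false
set_option backward.isDefEq.respectTransparency false
set_option backward.defeqAttrib.useBackward true

open CategoryTheory Limits MonoidalCategory Pretriangulated Triangulated ZeroObject
open scoped Polynomial

namespace Pool.Agent.T6helper6.FF

open Pool.Agent.Y116.MT Pool.Agent.V1178.MT Pool.Agent.T6helper6.MT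

universe v u w

section

variable {C : Type u} [Category.{v} C] [Preadditive C] [Linear ℚ C]

/-- The value of a polynomial at an endomorphism. -/
noncomputable def pe {X : C} (f : X ⟶ X) (p : ℚ[X]) : X ⟶ X := Polynomial.aeval (R := ℚ) (A := End X) f p

lemma pe_add {X : C} (f : X ⟶ X) (p q : ℚ[X]) : pe f (p + q) = pe f p + pe f q :=
  map_add (Polynomial.aeval (R := ℚ) (A := End X) f) p q

lemma pe_mul {X : C} (f : X ⟶ X) (p q : ℚ[X]) : pe f (p * q) = pe f q ≫ pe f p :=
  map_mul (Polynomial.aeval (R := ℚ) (A := End X) f) p q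

lemma pe_one {X : C} (f : X ⟶ X) : pe f 1 = 𝟙 X :=
  map_one (Polynomial.aeval (R := ℚ) (A := End X) f)

lemma pe_C {X : C} (f : X ⟶ X) (a : ℚ) : pe f (Polynomial.C a) = a • 𝟙 X :=
  (Polynomial.aeval_C (A := End X) f a).trans (Algebra.algebraMap_eq_smul_one a)

lemma pe_X {X : C} (f : X ⟶ X) : pe f Polynomial.X = f :=
  Polynomial.aeval_X (R := ℚ) (A := End X) f

lemma pe_natural {X Y : C} {f : X ⟶ X} {g : Y ⟶ Y} {a : X ⟶ Y} (h : a ≫ g = f ≫ a) (p : ℚ[X]) :
    a ≫ pe g p = pe f p ≫ a := by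
  induction p using Polynomial.induction_on' with
  | add p q hp hq => rw [pe_add, pe_add, Preadditive.comp_add, Preadditive.add_comp, hp, hq]
  | monomial n c =>
    induction n with
    | zero =>
      rw [Polynomial.monomial_zero_left, pe_C, pe_C, Linear.comp_smul, Linear.smul_comp,
        Category.comp_id, Category.id_comp]
    | succ n ih =>
      rw [← Polynomial.monomial_mul_X, pe_mul, pe_mul, pe_X, pe_X, reassoc_of% h, ih,
        Category.assoc]

lemma pe_mul' {X : C} (f : X ⟶ X) (p q : ℚ[X]) : pe f (p * q) = pe f p ≫ pe f q := by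
  rw [mul_comm, pe_mul]

lemma pe_mul_zero {X : C} {f : X ⟶ X} {p : ℚ[X]} (q : ℚ[X]) (h : pe f p = 0) :
    pe f (q * p) = 0 := by
  rw [pe_mul, h, zero_comp]

lemma pe_dvd {X : C} {f : X ⟶ X} {p q : ℚ[X]} (h : pe f p = 0) (hpq : p ∣ q) : pe f q = 0 := by
  obtain ⟨r, rfl⟩ := hpq
  rw [pe_mul', h, zero_comp]

/-- There are no equivariant maps between objects with coprime minimal polynomials. -/
lemma coprime_zero {X Y : C} {f : X ⟶ X} {g : Y ⟶ Y} {a : X ⟶ Y} (h : a ≫ g = f ≫ a)
    {p q : ℚ[X]} (hpq : IsCoprime p q) (hf : pe f p = 0) (hg : pe g q = 0) : a = 0 := by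
  obtain ⟨u, v, huv⟩ := hpq
  have h1 : a = a ≫ pe g (u * p + v * q) := by rw [huv, pe_one, Category.comp_id]
  rw [h1, pe_add, pe_mul_zero v hg, add_zero, pe_natural h, pe_mul_zero u hf, zero_comp]

/-- The idempotent of a coprime factorisation. -/
lemma exists_idem {X : C} {f : X ⟶ X} {p q : ℚ[X]} (hpq : IsCoprime p q)
    (hf : pe f (p * q) = 0) : ∃ e : ℚ[X], pe f e ≫ pe f e = pe f e ∧
      pe f e ≫ pe f p = 0 ∧ (𝟙 X - pe f e) ≫ pe f q = 0 := by
  obtain ⟨u, v, huv⟩ := hpq
  refine ⟨v * q, ?_, ?_, ?_⟩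
  · rw [← pe_mul']
    have h1 : v * q * (v * q) = v * q - (v * u) * (p * q) := by
      linear_combination (v * q) * huv
    have h2 : pe f (v * q) = pe f (v * q * (v * q)) + pe f ((v * u) * (p * q)) := by
      rw [← pe_add]
      congr 1
      rw [h1]
      ring
    rw [h2, pe_mul_zero _ hf, add_zero]
  · rw [← pe_mul', show v * q * p = v * (p * q) by ring, pe_mul_zero _ hf]
  · have h1 : 𝟙 X - pe f (v * q) = pe f (u * p) := by
      rw [sub_eq_iff_eq_add, ← pe_add, huv, pe_one]
    rw [h1, ← pe_mul', show u * p * q = u * (p * q) by ring, pe_mul_zero _ hf]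

end

section Real

variable {C : Type u} [Category.{v} C] [Preadditive C] [Linear ℚ C] {E : Type w} [Field E]
  [CharZero E] (H : C ⥤ ModuleCat.{w} E) [H.Additive]

lemma H_qsmul {X Y : C} (q : ℚ) (f : X ⟶ Y) :
    (H.map (q • f)).hom = algebraMap ℚ E q • (H.map f).hom := by
  have h1 : (q.den : ℤ) • (q • f) = q.num • f := by
    rw [← Int.cast_smul_eq_zsmul ℚ, ← Int.cast_smul_eq_zsmul ℚ, smul_smul]
    congr 1
    push_cast
    rw [mul_comm]
    exact Rat.mul_den_eq_num q
  have h2 : (q.den : ℤ) • H.map (q • f) = q.num • H.map f := by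
    rw [← Functor.map_zsmul, ← Functor.map_zsmul, h1]
  have h3 : ((q.den : ℤ) : E) • (H.map (q • f)).hom = ((q.num : ℤ) : E) • (H.map f).hom := by
    rw [Int.cast_smul_eq_zsmul, Int.cast_smul_eq_zsmul]
    exact congrArg ModuleCat.Hom.hom h2
  have h4 : ((q.den : ℤ) : E) ≠ 0 := by exact_mod_cast q.den_ne_zero
  have h5 : algebraMap ℚ E q = ((q.den : ℤ) : E)⁻¹ * ((q.num : ℤ) : E) := by
    rw [eq_comm, inv_mul_eq_iff_eq_mul₀ h4]
    rw [eq_ratCast]
    have h6 := Rat.mul_den_eq_num q
    have h7 : ((q * (q.den : ℚ) : ℚ) : E) = ((q.num : ℚ) : E) := by rw [h6]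
    push_cast at h7 ⊢
    rw [← h7, mul_comm]
  rw [h5, mul_smul, ← h3, smul_smul, inv_mul_cancel₀ h4, one_smul]

lemma H_pe {X : C} (f : X ⟶ X) (p : ℚ[X]) : (H.map (pe f p)).hom =
    Polynomial.aeval (R := E) (A := Module.End E (H.obj X)) (H.map f).hom
      (p.map (algebraMap ℚ E)) := by
  induction p using Polynomial.induction_on' with
  | add p q hp hq =>
    rw [pe_add, Functor.map_add, Polynomial.map_add, map_add, ← hp, ← hq]
    rfl
  | monomial n c =>
    induction n with
    | zero =>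
      rw [Polynomial.monomial_zero_left, pe_C, H_qsmul, Polynomial.map_C, Polynomial.aeval_C,
        CategoryTheory.Functor.map_id, Algebra.algebraMap_eq_smul_one]
      rfl
    | succ n ih =>
      rw [← Polynomial.monomial_mul_X, pe_mul, pe_X, Functor.map_comp, Polynomial.map_mul,
        map_mul, Polynomial.map_X, Polynomial.aeval_X, ← ih]
      rfl

end Real

section Shift

variable {C : Type u} [Category.{v} C] [Preadditive C] [Linear ℚ C] {D : Type u} [Category.{v} D]
  [Preadditive D] [Linear ℚ D] (G : C ⥤ D) [G.Additive]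

lemma map_qsmul {X Y : C} (q : ℚ) (f : X ⟶ Y) : G.map (q • f) = q • G.map f := by
  have h1 : (q.den : ℤ) • (q • f) = q.num • f := by
    rw [← Int.cast_smul_eq_zsmul ℚ, ← Int.cast_smul_eq_zsmul ℚ, smul_smul]
    congr 1
    push_cast
    rw [mul_comm]
    exact Rat.mul_den_eq_num q
  have h2 : (q.den : ℤ) • G.map (q • f) = q.num • G.map f := by
    rw [← Functor.map_zsmul, ← Functor.map_zsmul, h1]
  have h3 : ((q.den : ℤ) : ℚ) • G.map (q • f) = ((q.den : ℤ) : ℚ) • (q • G.map f) := by
    rw [Int.cast_smul_eq_zsmul, h2, smul_smul, ← Int.cast_smul_eq_zsmul ℚ]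
    congr 1
    push_cast
    rw [mul_comm]
    exact (Rat.mul_den_eq_num q).symm
  have h4 : ((q.den : ℤ) : ℚ) ≠ 0 := by exact_mod_cast q.den_ne_zero
  have h5 := congrArg (fun z => ((q.den : ℤ) : ℚ)⁻¹ • z) h3
  simpa only [smul_smul, inv_mul_cancel₀ h4, one_smul, inv_mul_cancel_left₀ h4] using h5

lemma map_pe {X : C} (f : X ⟶ X) (p : ℚ[X]) : G.map (pe f p) = pe (G.map f) p := by
  induction p using Polynomial.induction_on' with
  | add p q hp hq => rw [pe_add, Functor.map_add, pe_add, hp, hq]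
  | monomial n c =>
    induction n with
    | zero =>
      rw [Polynomial.monomial_zero_left, pe_C, pe_C, map_qsmul, CategoryTheory.Functor.map_id]
    | succ n ih =>
      rw [← Polynomial.monomial_mul_X, pe_mul, pe_mul, pe_X, pe_X, Functor.map_comp, ih]

end Shift

end Pool.Agent.T6helper6.FF
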